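import Pool.Agent.Run7.h558.SidA

/-!
# Subgaussian sets of characters on `(ℤ/4ℤ)^ℕ`
-/

set_option autoImplicit false

open MeasureTheory Finset

namespace Pool.Agent.Results.MP_080bf7_an.SubgaussianUnion

/-- The compact abelian group `G = (ℤ/4ℤ)^ℕ` (product of the discrete groups `ℤ/4ℤ`). -/
abbrev G : Type := ℕ → ZMod 4

/-- Its dual group: the finitely supported sequences in `ℤ/4ℤ`. -/
abbrev Ghat : Type := ℕ →₀ ZMod 4

/-- The normalised Haar measure of `G`: the Haar measure giving the compact set `G` mass `1`. -/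
noncomputable def haar : Measure G := Measure.addHaarMeasure ⊤

/-- The character `γₙ(t) = exp (2πi ∑ₖ tₖ nₖ / 4)`. -/
noncomputable def character (n : Ghat) (t : G) : ℂ :=
  Complex.exp (2 * Real.pi * Complex.I * ((∑ k ∈ n.support, (t k).val * (n k).val : ℕ) : ℂ) / 4)

/-- `‖f‖_{ψ₂} = inf {c > 0 : ∫ exp(|f|²/c²) dm ≤ e}`. -/
noncomputable def psi2 (f : G → ℂ) : ℝ :=
  sInf {c : ℝ | 0 < c ∧
    ∫⁻ t, ENNReal.ofReal (Real.exp (‖f t‖ ^ 2 / c ^ 2)) ∂haar ≤ ENNReal.ofReal (Real.exp 1)}

/-- `Λ` is subgaussian: some constant `C` has `‖∑ aₙ γₙ‖_{ψ₂} ≤ C (∑ |aₙ|²)^{1/2}` for all finitely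
supported families of complex coefficients on `Λ`. -/
def Subgaussian (Λ : Set Ghat) : Prop :=
  ∃ C : ℝ, ∀ (A : Finset Ghat) (a : Ghat → ℂ), (A : Set Ghat) ⊆ Λ →
    psi2 (fun t => ∑ n ∈ A, a n * character n t) ≤ C * Real.sqrt (∑ n ∈ A, ‖a n‖ ^ 2)

/-- `Λ` is quasi-independent: a relation `∑_{λ ∈ A} ξ_λ λ = 0` with `A ⊆ Λ` finite and
`ξ_λ ∈ {-1, 0, 1}` is trivial. -/
def QuasiIndependent (Λ : Set Ghat) : Prop :=
  ∀ A : Finset Ghat, (A : Set Ghat) ⊆ Λ → ∀ ξ : Ghat → ℤ,
    (∀ l ∈ A, ξ l = -1 ∨ ξ l = 0 ∨ ξ l = 1) → ∑ l ∈ A, ξ l • l = 0 → ∀ l ∈ A, ξ l = 0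

/-! ### Characters -/

theorem character_eq (n : Ghat) (t : G) :
    character n t = ZMod.stdAddChar (∑ k ∈ n.support, t k * n k) := by
  have h1 : (∑ k ∈ n.support, t k * n k : ZMod 4) =
      (((∑ k ∈ n.support, (t k).val * (n k).val : ℕ) : ℤ) : ZMod 4) := by
    push_cast
    apply Finset.sum_congr rfl
    intro k _
    rw [ZMod.natCast_zmod_val, ZMod.natCast_zmod_val]
  rw [h1, ZMod.stdAddChar_coe, character]
  push_cast
  rfl

theorem character_eq' (n : Ghat) (t : G) (s : Finset ℕ) (hs : n.support ⊆ s) :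
    character n t = ZMod.stdAddChar (∑ k ∈ s, t k * n k) := by
  rw [character_eq]
  congr 1
  apply Finset.sum_subset hs
  intro k _ hk
  rw [Finsupp.notMem_support_iff.1 hk, mul_zero]

theorem character_zero (t : G) : character 0 t = 1 := by
  rw [character_eq]
  simp

theorem character_add (m n : Ghat) (t : G) :
    character (m + n) t = character m t * character n t := by
  classical
  rw [character_eq' (m + n) t (m.support ∪ n.support) Finsupp.support_add,
    character_eq' m t (m.support ∪ n.support) Finset.subset_union_left,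
    character_eq' n t (m.support ∪ n.support) Finset.subset_union_right, ← AddChar.map_add_eq_mul,
    ← Finset.sum_add_distrib]
  congr 1
  apply Finset.sum_congr rfl
  intro k _
  rw [Finsupp.add_apply, mul_add]

theorem character_add_right (n : Ghat) (s t : G) :
    character n (s + t) = character n s * character n t := by
  rw [character_eq, character_eq, character_eq, ← AddChar.map_add_eq_mul, ← Finset.sum_add_distrib]
  congr 1
  apply Finset.sum_congr rfl
  intro k _
  rw [Pi.add_apply, add_mul]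

theorem character_continuous (n : Ghat) : Continuous (character n) := by
  have : character n = fun t => ZMod.stdAddChar (∑ k ∈ n.support, t k * n k) :=
    funext (character_eq n)
  rw [this]
  refine Continuous.comp (continuous_of_discreteTopology) ?_
  apply continuous_finsetSum
  intro k _
  exact (continuous_apply k).mul continuous_const

instance : IsProbabilityMeasure haar := by
  constructor
  rw [haar]
  exact Measure.addHaarMeasure_self

instance : haar.IsAddLeftInvariant := by
  rw [haar]
  infer_instance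

theorem charSys : Run7.h558.SidA.CharSys haar character where
  zero := character_zero
  add := character_add
  meas n := (character_continuous n).measurable
  norm n t := by
    rw [character_eq]
    exact AddChar.norm_apply _ _
  int n hn := by
    obtain ⟨k, hk⟩ := Finsupp.ne_iff.1 hn
    rw [Finsupp.zero_apply] at hk
    have h1 : character n (Pi.single k 1) ≠ 1 := by
      rw [character_eq, Finset.sum_eq_single k]
      · rw [Pi.single_eq_same, one_mul]
        intro h
        apply hk
        apply ZMod.injective_stdAddChar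
        rw [h, AddChar.map_zero_eq_one]
      · intro b _ hb
        rw [Pi.single_eq_of_ne hb, zero_mul]
      · intro h
        rw [Finsupp.notMem_support_iff.1 h, mul_zero]
    have h2 : ∫ t, character n t ∂haar = character n (Pi.single k 1) * ∫ t, character n t ∂haar := by
      conv_lhs => rw [← integral_add_left_eq_self (fun t => character n t) (Pi.single k 1)]
      simp_rw [character_add_right]
      rw [integral_const_mul]
    have h3 : (1 - character n (Pi.single k 1)) * ∫ t, character n t ∂haar = 0 := by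
      rw [sub_mul, one_mul, ← h2, sub_self]
    rcases mul_eq_zero.1 h3 with h4 | h4
    · exact absurd (sub_eq_zero.1 h4).symm h1
    · exact h4

/-! ### Subgaussian sets are small -/

theorem poly_norm_le (A : Finset Ghat) (a : Ghat → ℂ) (t : G) :
    ‖∑ n ∈ A, a n * character n t‖ ≤ ∑ n ∈ A, ‖a n‖ := by
  refine (norm_sum_le _ _).trans (Finset.sum_le_sum ?_)
  intro n _
  rw [norm_mul, charSys.norm, mul_one]

theorem small (Λ : Set Ghat) (h0 : (0 : Ghat) ∉ Λ) (h : Subgaussian Λ) :
    ∃ K : ℕ, H337R3.Sid.Small K Λ := by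
  classical
  obtain ⟨C, hC⟩ := h
  set C' : ℝ := max C 0 + 1 with hC'
  have hC'0 : 0 < C' := by
    have : 0 ≤ max C 0 := le_max_right _ _
    linarith
  have hCC' : C < C' := by
    have : C ≤ max C 0 := le_max_left _ _
    linarith
  refine ⟨⌈2 * C' ^ 2⌉₊, ?_⟩
  intro A hA
  have hfin : Finite (AddSubgroup.closure (A : Set Ghat)) := by
    apply H337R3.Sid.closure_finite 4 (by norm_num)
    intro x _
    ext k
    rw [Finsupp.smul_apply, Finsupp.zero_apply]
    have : ∀ y : ZMod 4, 4 • y = 0 := by decide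
    rw [this]
  by_cases hAe : A.Nonempty
  swap
  · rw [Finset.not_nonempty_iff_eq_empty] at hAe
    subst hAe
    simp only [Finset.card_empty, pow_zero]
    apply Nat.one_le_pow
    exact Nat.card_pos
  have hAcard : 0 < A.card := Finset.card_pos.mpr hAe
  have hAcard' : (0 : ℝ) < A.card := by exact_mod_cast hAcard
  set M := AddSubgroup.closure (A : Set Ghat) with hM
  let _ := Fintype.ofFinite M
  set N := Nat.card M with hN
  have hN2 : 2 ≤ N := by
    obtain ⟨x, hx⟩ := hAe
    have hx0 : x ≠ 0 := by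
      rintro rfl
      exact h0 (hA hx)
    have : Nontrivial M := ⟨⟨⟨x, AddSubgroup.subset_closure hx⟩, 0, fun h => hx0 (by
      have := congrArg Subtype.val h
      simpa using this)⟩⟩
    exact Finite.one_lt_card
  -- the polynomial
  set f : G → ℂ := fun t => ∑ n ∈ A, (1 : ℂ) * character n t with hf
  have hfm : Measurable f := by
    apply Finset.measurable_sum
    intro n _
    exact (charSys.meas n).const_mul _
  have hpsi := hC A (fun _ => 1) hA
  have hsum1 : ∑ n ∈ A, ‖(1 : ℂ)‖ ^ 2 = A.card := by simp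
  rw [hsum1] at hpsi
  have hlt : psi2 f < C' * Real.sqrt A.card :=
    lt_of_le_of_lt hpsi (mul_lt_mul_of_pos_right hCC' (Real.sqrt_pos.2 hAcard'))
  have hne : {c : ℝ | 0 < c ∧ ∫⁻ t, ENNReal.ofReal (Real.exp (‖f t‖ ^ 2 / c ^ 2)) ∂haar ≤
      ENNReal.ofReal (Real.exp 1)}.Nonempty := by
    refine ⟨A.card, hAcard', ?_⟩
    calc _ ≤ ∫⁻ _t, ENNReal.ofReal (Real.exp 1) ∂haar := by
          apply lintegral_mono
          intro t
          apply ENNReal.ofReal_le_ofReal
          apply Real.exp_le_exp.2
          rw [div_le_one (by positivity)]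
          have h1 := poly_norm_le A (fun _ => 1) t
          have h2 : ∑ n ∈ A, ‖(1 : ℂ)‖ = A.card := by simp
          rw [h2] at h1
          exact pow_le_pow_left₀ (norm_nonneg _) h1 2
      _ = _ := by simp
  obtain ⟨c, ⟨hc0, hc⟩, hcC⟩ := exists_lt_of_csInf_lt hne hlt
  -- the level sets
  let E : AddChar M ℂ → Set G := fun ψ => {t | ∀ n : M, character n t = ψ n}
  have hE : ∀ ψ, haar (E ψ) ≤ haar (E 1) := by
    intro ψ
    by_cases hne : (E ψ).Nonempty
    · obtain ⟨s, hs⟩ := hne
      have hsub : E ψ ⊆ (fun t => -s + t) ⁻¹' (E 1) := by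
        intro t ht n
        have h1 : character n (-s + t) * character n s = character n t := by
          rw [← character_add_right]
          congr 1
          abel
        have h2 := hs n
        have h3 := ht n
        have h4 : ψ n ≠ 0 := by
          intro h5
          have := charSys.norm (n : Ghat) s
          rw [h2, h5, norm_zero] at this
          exact zero_ne_one this
        rw [h2, h3] at h1
        rw [AddChar.one_apply]
        exact mul_right_cancel₀ h4 (h1.trans (one_mul _).symm)
      calc haar (E ψ) ≤ haar ((fun t => -s + t) ⁻¹' (E 1)) := measure_mono hsub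
        _ = haar (E 1) := measure_preimage_add _ _ _
    · rw [Set.not_nonempty_iff_eq_empty] at hne
      rw [hne, measure_empty]
      exact zero_le
  have hcover : (Set.univ : Set G) ⊆ ⋃ ψ, E ψ := by
    intro t _
    rw [Set.mem_iUnion]
    refine ⟨{ toFun := fun m => character (m : Ghat) t
              map_zero_eq_one' := character_zero t
              map_add_eq_mul' := fun a b => by
                rw [AddSubgroup.coe_add]
                exact character_add _ _ _ }, fun n => rfl⟩
  have hone : (1 : ENNReal) ≤ N * haar (E 1) := by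
    calc (1 : ENNReal) = haar Set.univ := measure_univ.symm
      _ ≤ haar (⋃ ψ, E ψ) := measure_mono hcover
      _ ≤ ∑ ψ, haar (E ψ) := measure_iUnion_fintype_le _ _
      _ ≤ ∑ _ψ : AddChar M ℂ, haar (E 1) := Finset.sum_le_sum fun ψ _ => hE ψ
      _ = N * haar (E 1) := by
        rw [Finset.sum_const, Finset.card_univ, AddChar.card_eq, hN, Nat.card_eq_fintype_card,
          nsmul_eq_mul]
  -- Markov
  have hmem : ∀ n ∈ A, n ∈ M := fun n hn => AddSubgroup.subset_closure hn
  have hmarkov : ENNReal.ofReal (Real.exp ((A.card : ℝ) ^ 2 / c ^ 2)) * haar (E 1) ≤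
      ENNReal.ofReal (Real.exp 1) := by
    refine le_trans ?_ hc
    refine le_trans ?_ (mul_meas_ge_le_lintegral (by fun_prop)
      (ENNReal.ofReal (Real.exp ((A.card : ℝ) ^ 2 / c ^ 2))))
    apply mul_le_mul_right
    apply measure_mono
    intro t ht
    have h1 : f t = A.card := by
      simp only [hf, one_mul]
      have : ∀ n ∈ A, character n t = 1 := by
        intro n hn
        have := ht ⟨n, hmem n hn⟩
        rwa [AddChar.one_apply] at this
      rw [Finset.sum_congr rfl this]
      simp
    rw [Set.mem_ofPred_eq, h1]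
    simp
  have hexp : Real.exp ((A.card : ℝ) ^ 2 / c ^ 2) ≤ N * Real.exp 1 := by
    have h1 : ENNReal.ofReal (Real.exp ((A.card : ℝ) ^ 2 / c ^ 2)) ≤
        ENNReal.ofReal (N * Real.exp 1) := by
      calc ENNReal.ofReal (Real.exp ((A.card : ℝ) ^ 2 / c ^ 2))
          = ENNReal.ofReal (Real.exp ((A.card : ℝ) ^ 2 / c ^ 2)) * 1 := (mul_one _).symm
        _ ≤ ENNReal.ofReal (Real.exp ((A.card : ℝ) ^ 2 / c ^ 2)) * (N * haar (E 1)) := by gcongr
        _ = N * (ENNReal.ofReal (Real.exp ((A.card : ℝ) ^ 2 / c ^ 2)) * haar (E 1)) := by ring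
        _ ≤ N * ENNReal.ofReal (Real.exp 1) := by gcongr
        _ = ENNReal.ofReal (N * Real.exp 1) := by
          rw [ENNReal.ofReal_mul (by positivity), ENNReal.ofReal_natCast]
    exact (ENNReal.ofReal_le_ofReal_iff (by positivity)).1 h1
  have hNpos : (0 : ℝ) < N := by exact_mod_cast (by omega : 0 < N)
  have hlog : (A.card : ℝ) ^ 2 / c ^ 2 ≤ 1 + Real.log N := by
    have h1 := Real.log_le_log (Real.exp_pos _) hexp
    rw [Real.log_exp, Real.log_mul hNpos.ne' (Real.exp_pos _).ne', Real.log_exp] at h1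
    linarith
  have hcsq : c ^ 2 < C' ^ 2 * A.card := by
    have h1 := pow_lt_pow_left₀ hcC hc0.le two_ne_zero
    rwa [mul_pow, Real.sq_sqrt hAcard'.le] at h1
  have hA1 : (A.card : ℝ) ≤ C' ^ 2 * (1 + Real.log N) := by
    rw [div_le_iff₀ (by positivity)] at hlog
    have hlogN : 0 ≤ Real.log N := Real.log_nonneg (by exact_mod_cast (by omega : 1 ≤ N))
    have h2 : (A.card : ℝ) ^ 2 ≤ (1 + Real.log N) * (C' ^ 2 * A.card) :=
      hlog.trans (mul_le_mul_of_nonneg_left hcsq.le (by linarith))
    have h3 : (A.card : ℝ) * A.card ≤ (C' ^ 2 * (1 + Real.log N)) * A.card := by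
      calc (A.card : ℝ) * A.card = (A.card : ℝ) ^ 2 := by ring
        _ ≤ (1 + Real.log N) * (C' ^ 2 * A.card) := h2
        _ = _ := by ring
    exact le_of_mul_le_mul_right h3 hAcard'
  have hlog2N : Real.log 2 ≤ Real.log N := Real.log_le_log (by norm_num) (by exact_mod_cast hN2)
  have hlog21 : Real.log 2 ≤ 1 := by
    have := Real.log_two_lt_d9
    linarith
  have hlog20 : 0 < Real.log 2 := Real.log_pos (by norm_num)
  have hlogN : 0 ≤ Real.log N := by linarith
  have h5 : (A.card : ℝ) * Real.log 2 ≤ (⌈2 * C' ^ 2⌉₊ : ℝ) * Real.log N := by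
    calc (A.card : ℝ) * Real.log 2 ≤ (C' ^ 2 * (1 + Real.log N)) * Real.log 2 :=
          mul_le_mul_of_nonneg_right hA1 hlog20.le
      _ = C' ^ 2 * (Real.log 2 + Real.log N * Real.log 2) := by ring
      _ ≤ C' ^ 2 * (Real.log N + Real.log N * 1) := by
          apply mul_le_mul_of_nonneg_left _ (by positivity)
          exact add_le_add hlog2N (mul_le_mul_of_nonneg_left hlog21 hlogN)
      _ = 2 * C' ^ 2 * Real.log N := by ring
      _ ≤ _ := mul_le_mul_of_nonneg_right (Nat.le_ceil _) hlogN
  have h6 : Real.log ((2 : ℝ) ^ A.card) ≤ Real.log ((N : ℝ) ^ ⌈2 * C' ^ 2⌉₊) := by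
    rw [Real.log_pow, Real.log_pow]
    exact h5
  have h7 := (Real.log_le_log_iff (by positivity) (by positivity)).mp h6
  exact_mod_cast h7

/-! ### Finite unions of quasi-independent sets are subgaussian -/

theorem re_mgf (B : Finset Ghat) (hB : QuasiIndependent (B : Set Ghat)) (a : Ghat → ℂ) (S : ℝ)
    (hS : ∑ n ∈ B, ‖a n‖ ^ 2 ≤ S) (s : ℝ) :
    ∫ t, Real.exp (s * (∑ n ∈ B, a n * character n t).re) ∂haar ≤ Real.exp (s ^ 2 * S / 2) := by
  have h1 := Run7.h558.SidA.riesz charSys B hB (fun n => (s : ℂ) * a n)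
  have h2 : ∀ t, (∑ n ∈ B, (s : ℂ) * a n * character n t).re =
      s * (∑ n ∈ B, a n * character n t).re := by
    intro t
    rw [← Complex.re_ofReal_mul, Finset.mul_sum]
    congr 1
    apply Finset.sum_congr rfl
    intro n _
    ring
  simp_rw [h2] at h1
  refine h1.trans (Real.exp_le_exp.2 ?_)
  apply div_le_div_of_nonneg_right _ (by norm_num)
  have h3 : ∀ n, ‖(s : ℂ) * a n‖ ^ 2 = s ^ 2 * ‖a n‖ ^ 2 := by
    intro n
    rw [norm_mul, mul_pow, Complex.norm_real, Real.norm_eq_abs, sq_abs]
  simp_rw [h3]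
  rw [← Finset.mul_sum]
  exact mul_le_mul_of_nonneg_left hS (sq_nonneg s)

theorem re_sq (B : Finset Ghat) (hB : QuasiIndependent (B : Set Ghat)) (a : Ghat → ℂ) (S : ℝ)
    (hS0 : 0 < S) (hS : ∑ n ∈ B, ‖a n‖ ^ 2 ≤ S) :
    ∫⁻ t, ENNReal.ofReal (Real.exp ((∑ n ∈ B, a n * character n t).re ^ 2 / (4 * S))) ∂haar ≤
      ENNReal.ofReal (Real.sqrt 2) := by
  apply Run7.h558.SidA.exp_sq (fun t => (∑ n ∈ B, a n * character n t).re) ?_
    (∑ n ∈ B, ‖a n‖) ?_ S hS0 (re_mgf B hB a S hS)
  · apply Complex.measurable_re.comp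
    apply Finset.measurable_sum
    intro n _
    exact (charSys.meas n).const_mul _
  · intro t
    exact (Complex.abs_re_le_norm _).trans (poly_norm_le B a t)

theorem im_sq (B : Finset Ghat) (hB : QuasiIndependent (B : Set Ghat)) (a : Ghat → ℂ) (S : ℝ)
    (hS0 : 0 < S) (hS : ∑ n ∈ B, ‖a n‖ ^ 2 ≤ S) :
    ∫⁻ t, ENNReal.ofReal (Real.exp ((∑ n ∈ B, a n * character n t).im ^ 2 / (4 * S))) ∂haar ≤
      ENNReal.ofReal (Real.sqrt 2) := by
  have h1 := re_sq B hB (fun n => -Complex.I * a n) S hS0 (by
    refine le_trans (le_of_eq ?_) hS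
    apply Finset.sum_congr rfl
    intro n _
    rw [norm_mul, norm_neg, Complex.norm_I, one_mul])
  have h2 : ∀ t, (∑ n ∈ B, -Complex.I * a n * character n t).re =
      (∑ n ∈ B, a n * character n t).im := by
    intro t
    have : ∑ n ∈ B, -Complex.I * a n * character n t =
        -Complex.I * ∑ n ∈ B, a n * character n t := by
      rw [Finset.mul_sum]
      apply Finset.sum_congr rfl
      intro n _
      ring
    rw [this]
    simp
  simp_rw [h2] at h1
  exact h1

theorem exp_split (k : ℕ) (hk : 0 < k) (S : ℝ) (hS : 0 < S) (z : Fin k → ℂ) :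
    Real.exp (‖∑ i, z i‖ ^ 2 / (3 * k * Real.sqrt S) ^ 2) ≤
      ∑ i, (1 / (2 * k : ℝ)) * (Real.exp ((z i).re ^ 2 / (4 * S)) +
        Real.exp ((z i).im ^ 2 / (4 * S))) := by
  have hk' : (0 : ℝ) < k := by exact_mod_cast hk
  have h1 : ‖∑ i, z i‖ ^ 2 ≤ k * ∑ i, ((z i).re ^ 2 + (z i).im ^ 2) := by
    calc ‖∑ i, z i‖ ^ 2 ≤ (∑ i, ‖z i‖) ^ 2 :=
          pow_le_pow_left₀ (norm_nonneg _) (norm_sum_le _ _) 2
      _ ≤ k * ∑ i, ‖z i‖ ^ 2 := by
          have := sq_sum_le_card_mul_sum_sq (s := (Finset.univ : Finset (Fin k)))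
            (f := fun i => ‖z i‖)
          simpa using this
      _ = _ := by
          congr 1
          apply Finset.sum_congr rfl
          intro i _
          rw [← Complex.normSq_eq_norm_sq, Complex.normSq_apply]
          ring
  have h2 : ‖∑ i, z i‖ ^ 2 / (3 * k * Real.sqrt S) ^ 2 ≤
      ∑ i, (1 / (k : ℝ)) * ((z i).re ^ 2 / (9 * S) + (z i).im ^ 2 / (9 * S)) := by
    rw [mul_pow, mul_pow, Real.sq_sqrt hS.le, div_le_iff₀ (by positivity)]
    refine h1.trans (le_of_eq ?_)
    rw [Finset.mul_sum, Finset.sum_mul]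
    apply Finset.sum_congr rfl
    intro i _
    field_simp
    ring
  have h3 := convexOn_exp.map_sum_le (t := (Finset.univ : Finset (Fin k)))
    (w := fun _ => 1 / (k : ℝ))
    (p := fun i => (z i).re ^ 2 / (9 * S) + (z i).im ^ 2 / (9 * S))
    (fun i _ => by positivity) (by
      rw [Finset.sum_const, Finset.card_univ, Fintype.card_fin, nsmul_eq_mul]
      field_simp) (fun i _ => Set.mem_univ _)
  simp only [smul_eq_mul] at h3
  refine (Real.exp_le_exp.2 h2).trans (h3.trans ?_)
  apply Finset.sum_le_sum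
  intro i _
  have h4 : Real.exp ((z i).re ^ 2 / (9 * S) + (z i).im ^ 2 / (9 * S)) ≤
      (1 / 2) * (Real.exp ((z i).re ^ 2 / (4 * S)) + Real.exp ((z i).im ^ 2 / (4 * S))) := by
    rw [Real.exp_add]
    set p := Real.exp ((z i).re ^ 2 / (9 * S)) with hp
    set q := Real.exp ((z i).im ^ 2 / (9 * S)) with hq
    have h5 : p * q ≤ (1 / 2) * (p ^ 2 + q ^ 2) := by nlinarith [sq_nonneg (p - q)]
    have h6 : ∀ y : ℝ, Real.exp (y ^ 2 / (9 * S)) ^ 2 ≤ Real.exp (y ^ 2 / (4 * S)) := by
      intro y
      rw [← Real.exp_nat_mul]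
      apply Real.exp_le_exp.2
      rw [Nat.cast_ofNat, mul_div_assoc', div_le_div_iff₀ (by positivity) (by positivity)]
      nlinarith [mul_nonneg (sq_nonneg y) hS.le]
    have h7 := h6 (z i).re
    have h8 := h6 (z i).im
    linarith
  calc 1 / (k : ℝ) * Real.exp ((z i).re ^ 2 / (9 * S) + (z i).im ^ 2 / (9 * S))
      ≤ 1 / (k : ℝ) * ((1 / 2) * (Real.exp ((z i).re ^ 2 / (4 * S)) +
        Real.exp ((z i).im ^ 2 / (4 * S)))) := mul_le_mul_of_nonneg_left h4 (by positivity)
    _ = _ := by field_simp

theorem lintegral_comb {k : ℕ} (U V : Fin k → G → ENNReal) (hU : ∀ i, Measurable (U i))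
    (hV : ∀ i, Measurable (V i)) (w : ENNReal) :
    ∫⁻ t, ∑ i, w * (U i t + V i t) ∂haar =
      ∑ i, w * (∫⁻ t, U i t ∂haar + ∫⁻ t, V i t ∂haar) := by
  have h1 : ∀ i, Measurable (fun t => w * (U i t + V i t)) := fun i =>
    ((hU i).add (hV i)).const_mul w
  rw [lintegral_finsetSum _ (fun i _ => h1 i)]
  apply Finset.sum_congr rfl
  intro i _
  have h2 : Measurable (fun t => U i t + V i t) := (hU i).add (hV i)
  rw [lintegral_const_mul _ h2, lintegral_add_left (hU i)]

theorem subgaussian_of_union (Λ : Set Ghat) (k : ℕ) (Q : Fin k → Set Ghat)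
    (hQ : ∀ i, QuasiIndependent (Q i)) (hΛ : Λ = ⋃ i, Q i) : Subgaussian Λ := by
  classical
  refine ⟨3 * k, ?_⟩
  intro A a hA
  set S : ℝ := ∑ n ∈ A, ‖a n‖ ^ 2 with hS
  have hS0 : 0 ≤ S := Finset.sum_nonneg fun n _ => by positivity
  have hbdd : ∀ f : G → ℂ, BddBelow {c : ℝ | 0 < c ∧
      ∫⁻ t, ENNReal.ofReal (Real.exp (‖f t‖ ^ 2 / c ^ 2)) ∂haar ≤
        ENNReal.ofReal (Real.exp 1)} := fun f => ⟨0, fun c hc => hc.1.le⟩
  rcases hS0.eq_or_lt with hS0 | hS0
  · -- all coefficients vanish
    have ha : ∀ n ∈ A, a n = 0 := by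
      intro n hn
      have h1 := (Finset.sum_eq_zero_iff_of_nonneg (fun n _ => by positivity)).1 hS0.symm n hn
      exact norm_eq_zero.1 (pow_eq_zero_iff two_ne_zero |>.1 h1)
    have hf : (fun t => ∑ n ∈ A, a n * character n t) = fun _ => (0 : ℂ) := by
      funext t
      apply Finset.sum_eq_zero
      intro n hn
      rw [ha n hn, zero_mul]
    rw [hf, ← hS0, Real.sqrt_zero, mul_zero]
    apply le_of_forall_pos_le_add
    intro ε hε
    rw [zero_add]
    apply csInf_le (hbdd _)
    refine ⟨hε, ?_⟩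
    simp
  · -- the colouring
    have hcol : ∀ n ∈ A, ∃ i, n ∈ Q i := by
      intro n hn
      have := hA (Finset.mem_coe.2 hn)
      rw [hΛ, Set.mem_iUnion] at this
      exact this
    have hAne : A.Nonempty := by
      rw [Finset.nonempty_iff_ne_empty]
      rintro rfl
      simp [hS] at hS0
    have hk : 0 < k := by
      obtain ⟨n, hn⟩ := hAne
      obtain ⟨i, _⟩ := hcol n hn
      exact i.pos
    let g : Ghat → Fin k := fun n => if h : ∃ i, n ∈ Q i then h.choose else ⟨0, hk⟩
    have hg : ∀ n ∈ A, n ∈ Q (g n) := by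
      intro n hn
      have h := hcol n hn
      simp only [g, dif_pos h]
      exact h.choose_spec
    let B : Fin k → Finset Ghat := fun i => A.filter (fun n => g n = i)
    have hB : ∀ i, QuasiIndependent (B i : Set Ghat) := by
      intro i D hD
      apply hQ i D
      intro n hn
      have h1 := hD hn
      rw [Finset.mem_coe, Finset.mem_filter] at h1
      rw [← h1.2]
      exact hg n h1.1
    have hBS : ∀ i, ∑ n ∈ B i, ‖a n‖ ^ 2 ≤ S := by
      intro i
      exact Finset.sum_le_sum_of_subset_of_nonneg (Finset.filter_subset _ _)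
        (fun n _ _ => by positivity)
    have hsplit : ∀ t, ∑ n ∈ A, a n * character n t = ∑ i, ∑ n ∈ B i, a n * character n t := by
      intro t
      exact (Finset.sum_fiberwise_of_maps_to (fun n _ => Finset.mem_univ (g n)) _).symm
    apply csInf_le (hbdd _)
    have hk' : (0 : ℝ) < k := by exact_mod_cast hk
    refine ⟨by positivity, ?_⟩
    have hmeas : ∀ i, Measurable (fun t => ∑ n ∈ B i, a n * character n t) := by
      intro i
      apply Finset.measurable_sum
      intro n _
      exact (charSys.meas n).const_mul _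
    calc ∫⁻ t, ENNReal.ofReal (Real.exp (‖∑ n ∈ A, a n * character n t‖ ^ 2 /
          (3 * k * Real.sqrt S) ^ 2)) ∂haar
        ≤ ∫⁻ t, ∑ i, ENNReal.ofReal (1 / (2 * k : ℝ)) *
          (ENNReal.ofReal (Real.exp ((∑ n ∈ B i, a n * character n t).re ^ 2 / (4 * S))) +
            ENNReal.ofReal (Real.exp ((∑ n ∈ B i, a n * character n t).im ^ 2 / (4 * S)))) ∂haar := by
          apply lintegral_mono
          intro t
          beta_reduce
          rw [hsplit]
          refine (ENNReal.ofReal_le_ofReal (exp_split k hk S hS0 _)).trans (le_of_eq ?_)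
          rw [ENNReal.ofReal_sum_of_nonneg (fun i _ => by positivity)]
          apply Finset.sum_congr rfl
          intro i _
          rw [ENNReal.ofReal_mul (by positivity), ENNReal.ofReal_add (Real.exp_pos _).le
            (Real.exp_pos _).le]
      _ = ∑ i, ENNReal.ofReal (1 / (2 * k : ℝ)) *
          (∫⁻ t, ENNReal.ofReal (Real.exp ((∑ n ∈ B i, a n * character n t).re ^ 2 / (4 * S))) ∂haar +
            ∫⁻ t, ENNReal.ofReal (Real.exp ((∑ n ∈ B i, a n * character n t).im ^ 2 / (4 * S))) ∂haar) := by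
          have hm1 : ∀ i, Measurable (fun t => ENNReal.ofReal
              (Real.exp ((∑ n ∈ B i, a n * character n t).re ^ 2 / (4 * S)))) := by
            intro i
            apply ENNReal.measurable_ofReal.comp
            apply Real.measurable_exp.comp
            exact ((Complex.measurable_re.comp (hmeas i)).pow_const 2).div_const _
          have hm2 : ∀ i, Measurable (fun t => ENNReal.ofReal
              (Real.exp ((∑ n ∈ B i, a n * character n t).im ^ 2 / (4 * S)))) := by
            intro i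
            apply ENNReal.measurable_ofReal.comp
            apply Real.measurable_exp.comp
            exact ((Complex.measurable_im.comp (hmeas i)).pow_const 2).div_const _
          exact lintegral_comb _ _ hm1 hm2 _
      _ ≤ ∑ _i : Fin k, ENNReal.ofReal (1 / (2 * k : ℝ)) *
          (ENNReal.ofReal (Real.sqrt 2) + ENNReal.ofReal (Real.sqrt 2)) := by
          apply Finset.sum_le_sum
          intro i _
          gcongr
          · exact re_sq (B i) (hB i) a S hS0 (hBS i)
          · exact im_sq (B i) (hB i) a S hS0 (hBS i)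
      _ = ENNReal.ofReal (Real.sqrt 2) := by
          rw [Finset.sum_const, Finset.card_univ, Fintype.card_fin, nsmul_eq_mul,
            ← ENNReal.ofReal_add (by positivity) (by positivity),
            ← ENNReal.ofReal_mul (by positivity), ← ENNReal.ofReal_natCast,
            ← ENNReal.ofReal_mul (by positivity)]
          congr 1
          field_simp
          ring
      _ ≤ ENNReal.ofReal (Real.exp 1) := by
          apply ENNReal.ofReal_le_ofReal
          have h1 : Real.sqrt 2 ≤ 2 := by
            rw [Real.sqrt_le_left (by norm_num)]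
            norm_num
          have h2 := Real.add_one_le_exp (1 : ℝ)
          linarith

/-- A set `Λ` of nontrivial characters of `(ℤ/4ℤ)^ℕ` is subgaussian if and only if it is a finite
union of quasi-independent sets. -/
theorem result (Λ : Set Ghat) (h0 : (0 : Ghat) ∉ Λ) :
    Subgaussian Λ ↔ ∃ (k : ℕ) (Q : Fin k → Set Ghat),
      (∀ i, QuasiIndependent (Q i)) ∧ Λ = ⋃ i, Q i := by
  classical
  constructor
  · intro h
    obtain ⟨K, hK⟩ := small Λ h0 h
    obtain ⟨Q, hQ, hΛ⟩ := H337R3.Sid.finite_union [2, 2] (by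
      intro q hq
      have : q = 2 := by simpa using hq
      rw [this]
      exact Nat.prime_two) K Λ (by
      intro x _
      ext k
      rw [Finsupp.smul_apply, Finsupp.zero_apply]
      have : ∀ y : ZMod 4, ([2, 2] : List ℕ).prod • y = 0 := by decide
      rw [this]) hK
    exact ⟨_, Q, hQ, hΛ⟩
  · rintro ⟨k, Q, hQ, hΛ⟩
    exact subgaussian_of_union Λ k Q hQ hΛ

end Pool.Agent.Results.MP_080bf7_an.SubgaussianUnion
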